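import Pool.Agent.X55.Fam.LinCor

/-!
# Almost prime quadruplets with prescribed digital functions in short intervals

Let `S` be a strongly `b`-additive function with values in a finite abelian group (for example the sum of the digits in
base `b`, or any vector of numbers of occurrences of nonzero digits, modulo some integers), which is not degenerate:
no nontrivial character of the group makes it a function of the residue of `n` modulo `b - 1`. We consider the quadruplets `n`, `n + 2`, `n + 6`, `n + 8` for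
the integers `n` with `S n = g` in ARBITRARY short intervals `(M, M + H]`.
* If `M + H ≤ H ^ B`, where `B` is arbitrary, the number of the `n` for which all the values have a bounded number of prime
  factors, all greater than `H ^ δ`, has the expected order of magnitude.
* The number of the `n` for which all of them are primes is at most of this order.
* The number of the `n` for which they have no prime factor up to `y` is given by an asymptotic formula. In particular this applies between any two consecutive large fifth powers.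

The proof combines the fundamental lemma of the sieve, Mertens' theorem for polynomials and the exponential sums of
digital functions (in the starting files), over the blocks of a short interval.
-/

set_option autoImplicit false

namespace Pool.Agent.Results.MP_c03ca8_nt.DigitalFunctions

open Finset Polynomial

/-- `S` is strongly `b`-additive (`S (b n + d) = S n + S d` for the digits `d < b`), and no nontrivial character of the
group maps `S n`, for all digits `n`, to the powers `z ^ n` of a number `z` with `z ^ (b - 1) = 1` -/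
def Digital {G : Type} [AddCommGroup G] (b : ℕ) (S : ℕ → G) : Prop :=
  (∀ n d : ℕ, d < b → S (b * n + d) = S n + S d) ∧
  ∀ χ : AddChar G ℂ, χ ≠ 0 → ¬ (χ (S 1) ^ (b - 1) = 1 ∧ ∀ d < b, χ (S d) = χ (S 1) ^ d)

/-- `m ≠ 0` has at most `r` prime factors, counted with multiplicity, all of them greater than `x`. -/
def AlmostPrime (r : ℕ) (x : ℝ) (m : ℕ) : Prop :=
  m ≠ 0 ∧ m.primeFactorsList.length ≤ r ∧ ∀ q : ℕ, q.Prime → q ∣ m → x < q

/-- the number of the `n` in `(M, M + H]` with the property `R` for which `n`, `n + 2`, `n + 6`, `n + 8` are almost primes -/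
noncomputable def almost (r : ℕ) (x : ℝ) (M H : ℕ) (R : ℕ → Prop) : ℕ :=
  Set.ncard {n : ℕ | M < n ∧ n ≤ M + H ∧ R n ∧ AlmostPrime r x n ∧ AlmostPrime r x (n + 2) ∧ AlmostPrime r x (n + 6) ∧ AlmostPrime r x (n + 8)}

/-- the number of the `n` in `(M, M + H]` with the property `R` for which `n`, `n + 2`, `n + 6`, `n + 8` are primes -/
noncomputable def primes (M H : ℕ) (R : ℕ → Prop) : ℕ :=
  Set.ncard {n : ℕ | M < n ∧ n ≤ M + H ∧ R n ∧ n.Prime ∧ (n + 2).Prime ∧ (n + 6).Prime ∧ (n + 8).Prime}

/-- the number of the `n` in `(M, M + H]` with the property `R` for which `n`, `n + 2`, `n + 6`, `n + 8` have no prime factor up to `y` -/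
noncomputable def rough (y M H : ℕ) (R : ℕ → Prop) : ℕ :=
  Set.ncard {n : ℕ | M < n ∧ n ≤ M + H ∧ R n ∧ ∀ q : ℕ, q.Prime → q ≤ y → ¬ q ∣ n ∧ ¬ q ∣ n + 2 ∧ ¬ q ∣ n + 6 ∧ ¬ q ∣ n + 8}

/-- the product over the primes `q ≤ y` of `1 - ν(q) / q`, where `ν(q)` is the number of the residues `a` modulo `q` for
which one of these values is divisible by `q` -/
noncomputable def V (y : ℕ) : ℝ :=
  ∏ q ∈ (Icc 1 y).filter Nat.Prime, (1 - (Set.ncard {a : ℕ | a < q ∧ (q ∣ a ∨ q ∣ a + 2 ∨ q ∣ a + 6 ∨ q ∣ a + 8)} : ℝ) / q)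

/-- the bounds for the interval `(M, M + H]` and the property `R`, with the expected number `N` -/
def Bounds (P r : ℕ) (δ c C : ℝ) (B M H : ℕ) (R : ℕ → Prop) (N : ℝ) : Prop :=
  (M + H ≤ P ^ B → c * N / Real.log P ^ 4 ≤ almost r ((P : ℝ) ^ δ) M H R) ∧ (primes M H R : ℝ) ≤ C * N / Real.log P ^ 4

/-- the asymptotic formula for the interval `(M, M + H]` and the property `R`, with the expected number `N` -/
def Rough (η : ℝ) (M H y : ℕ) (R : ℕ → Prop) (N : ℝ) : Prop :=
  |(rough y M H R : ℝ) - N * V y| ≤ η * (N * V y)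

/-- the polynomials -/
noncomputable def f : Fin 4 → ℤ[X] := ![C 1 * X + C 0, C 1 * X + C 2, C 1 * X + C 6, C 1 * X + C 8]

/-- their values -/
def G : Fin 4 → ℤ → ℤ := ![fun n => 1 * n + 0, fun n => 1 * n + 2, fun n => 1 * n + 6, fun n => 1 * n + 8]

/-- the values at natural numbers -/
def F : Fin 4 → ℕ → ℕ := ![fun n => n, fun n => n + 2, fun n => n + 6, fun n => n + 8]

lemma f_eval (i : Fin 4) (n : ℤ) : (f i).eval n = G i n := by
  fin_cases i <;> simp [f, G]

lemma f_deg (i : Fin 4) : (f i).natDegree = (![1, 1, 1, 1] : Fin 4 → ℕ) i := by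
  fin_cases i
  · show (C 1 * X + C 0 : ℤ[X]).natDegree = 1
    exact natDegree_linear (by norm_num)
  · show (C 1 * X + C 2 : ℤ[X]).natDegree = 1
    exact natDegree_linear (by norm_num)
  · show (C 1 * X + C 6 : ℤ[X]).natDegree = 1
    exact natDegree_linear (by norm_num)
  · show (C 1 * X + C 8 : ℤ[X]).natDegree = 1
    exact natDegree_linear (by norm_num)

lemma f_sys : Pool.Agent.X55.Fam.Sys 4 f := by
  refine Pool.Agent.X55.Fam.Sys.mk' ?_ ?_ ?_ 4 ?_ ?_
  · intro i
    fin_cases i
    · show Irreducible (C 1 * X + C 0 : ℤ[X])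
      exact Pool.Agent.X55.Fam.lin_irr _ _ (by norm_num) (fun d h1 h2 => isUnit_of_dvd_one (by have := dvd_add (h1.mul_left (1)) (h2.mul_left (-1)); norm_num at this; exact this))
    · show Irreducible (C 1 * X + C 2 : ℤ[X])
      exact Pool.Agent.X55.Fam.lin_irr _ _ (by norm_num) (fun d h1 h2 => isUnit_of_dvd_one (by have := dvd_add (h1.mul_left (-1)) (h2.mul_left (1)); norm_num at this; exact this))
    · show Irreducible (C 1 * X + C 6 : ℤ[X])
      exact Pool.Agent.X55.Fam.lin_irr _ _ (by norm_num) (fun d h1 h2 => isUnit_of_dvd_one (by have := dvd_add (h1.mul_left (1)) (h2.mul_left (0)); norm_num at this; exact this))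
    · show Irreducible (C 1 * X + C 8 : ℤ[X])
      exact Pool.Agent.X55.Fam.lin_irr _ _ (by norm_num) (fun d h1 h2 => isUnit_of_dvd_one (by have := dvd_add (h1.mul_left (1)) (h2.mul_left (0)); norm_num at this; exact this))
  · intro i
    rw [f_deg]
    fin_cases i <;> norm_num
  · intro i j hij
    fin_cases i <;> fin_cases j <;>
      first
      | exact absurd rfl hij
      | exact Pool.Agent.X55.Fam.not_assoc 0 (by rw [f_eval, f_eval]; norm_num [G])
  · simp [Fin.sum_univ_succ, f_deg]
  · intro p hp hp2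
    interval_cases p
    · exact absurd hp (by norm_num)
    · exact absurd hp (by norm_num)
    · exact ⟨1, fun i => by rw [f_eval]; fin_cases i <;> norm_num [G]⟩
    · exact ⟨2, fun i => by rw [f_eval]; fin_cases i <;> norm_num [G]⟩
    · exact absurd hp (by norm_num)

lemma hF (i : Fin 4) (n : ℕ) : ((f i).eval (n : ℤ)).natAbs = F i n := by
  rw [f_eval]
  fin_cases i
  · show (1 * (n : ℤ) + 0).natAbs = n
    rw [show (1 * (n : ℤ) + 0) = ((n : ℕ) : ℤ) by push_cast; ring, Int.natAbs_natCast]
  · show (1 * (n : ℤ) + 2).natAbs = n + 2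
    rw [show (1 * (n : ℤ) + 2) = ((n + 2 : ℕ) : ℤ) by push_cast; ring, Int.natAbs_natCast]
  · show (1 * (n : ℤ) + 6).natAbs = n + 6
    rw [show (1 * (n : ℤ) + 6) = ((n + 6 : ℕ) : ℤ) by push_cast; ring, Int.natAbs_natCast]
  · show (1 * (n : ℤ) + 8).natAbs = n + 8
    rw [show (1 * (n : ℤ) + 8) = ((n + 8 : ℕ) : ℤ) by push_cast; ring, Int.natAbs_natCast]

lemma conv {P r : ℕ} {δ c C : ℝ} {B M H : ℕ} {R : ℕ → Prop} {N : ℝ}
    (h : Pool.Agent.X55.Fam.Both F P r δ c C B M H R N) : Bounds P r δ c C B M H R N := by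
  unfold Pool.Agent.X55.Fam.Both at h
  simpa [Bounds, almost, primes, AlmostPrime, F, Pool.Agent.X55.Fam.Good, Fin.forall_fin_succ] using h

lemma convA {η : ℝ} {M H y : ℕ} {R : ℕ → Prop} {N : ℝ}
    (h : Pool.Agent.X55.Fam.Asym F η M H y R N) : Rough η M H y R N := by
  unfold Pool.Agent.X55.Fam.Asym at h
  simpa [Rough, rough, V, F, Fin.forall_fin_succ, Fin.exists_fin_succ] using h

theorem result : ∀ (G : Type) [AddCommGroup G] [Fintype G] (b : ℕ) (S : ℕ → G), 2 ≤ b → Digital b S →
    (∀ B : ℕ, ∃ (r : ℕ) (δ c C : ℝ) (H₀ : ℕ), 0 < δ ∧ 0 < c ∧ 0 < C ∧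
      ∀ H : ℕ, H₀ ≤ H → ∀ (M : ℕ) (g : G), Bounds H r δ c C B M H (fun n => S n = g) (H / Fintype.card G)) ∧
    (∀ η : ℝ, 0 < η → ∃ (δ : ℝ) (H₀ : ℕ), 0 < δ ∧
      ∀ H : ℕ, H₀ ≤ H → ∀ (M : ℕ) (g : G) (y : ℕ), 3 ≤ y → (y : ℝ) ≤ (H : ℝ) ^ δ →
      Rough η M H y (fun n => S n = g) (H / Fintype.card G)) := by
  intro G _ _ b S hb hS
  constructor
  · intro B
    obtain ⟨r, δ, c, C, H₀, hδ, hc, hC, h⟩ := Pool.Agent.X55.Fam.dig_cor b hb S hS.1 hS.2 f_sys F hF B
    exact ⟨r, δ, c, C, H₀, hδ, hc, hC, fun H hH M g => conv (h H hH M g)⟩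
  · intro η hη
    obtain ⟨δ, H₀, hδ, h⟩ := Pool.Agent.X55.Fam.dig_corA b hb S hS.1 hS.2 f_sys F hF η hη
    exact ⟨δ, H₀, hδ, fun H hH M g y hy hyH => convA (h H hH M g y hy hyH)⟩

end Pool.Agent.Results.MP_c03ca8_nt.DigitalFunctions
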