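import Mathlib
import Pool.Agent.X58.IV.ExactE

set_option autoImplicit false

/-!
# Isolated quadruplets of almost primes between consecutive fifth powers

Let `L` and `ε > 0` be arbitrary.  There are `C`, `t` such that every interval `(A, B]` of length `≥ n ^ ε`
between `n ^ 5` and `(n + 1) ^ 5`, `n` large, contains the conjectured order of magnitude of numbers `q` for which
`q`, `q + 2`, `q + 6`, `q + 8` are products of at most `t` primes, all of them `> (n ^ 6) ^ (1 / t)`, while all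
other `q + j`, `|j| ≤ L`, have a prime factor `≤ C`; and for any colouring with `r` colours nearly all of these `q`
are covered by disjoint monochromatic arithmetic progressions of `s` terms with differences `≤ (log n) ^ c`.
-/

namespace Pool.Agent.Results.MP_c03ca8_nt.ExactQuadruplets

open Finset Pool.Agent.X58.IV

/-- `v > 1` is a product of at most `t` primes, all of them `> z` -/
def AlmostPrime (t : ℕ) (z : ℝ) (v : ℕ) : Prop :=
  1 < v ∧ v.primeFactorsList.length ≤ t ∧ ∀ p : ℕ, p.Prime → p ∣ v → z < p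

open Classical in
/-- the `q` of `(A, B]` for which `q`, `q + 2`, `q + 6`, `q + 8` are products of at most `t` primes, all
`> (n ^ 6) ^ (1 / t)`, and all other `q + j`, `|j| ≤ L`, are divisible by a prime `≤ C` -/
noncomputable def Quadruplets (L C t n A B : ℕ) : Finset ℕ :=
  (Ioc A B).filter (fun q => (∀ h ∈ ({0, 2, 6, 8} : Finset ℕ),
      AlmostPrime t (((n ^ 6 : ℕ) : ℝ) ^ (1 / (t : ℝ))) (q + h)) ∧
    ∀ j : ℤ, -(L : ℤ) ≤ j → j ≤ L → j ≠ 0 → j ≠ 2 → j ≠ 6 → j ≠ 8 →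
      ∃ p : ℕ, p.Prime ∧ p ≤ C ∧ (p : ℤ) ∣ (q : ℤ) + j)

/-- the terms `a, a + b, ..., a + (s - 1) b` of the progression `z = (a, b)` -/
def Progression (s : ℕ) (z : ℕ × ℕ) : Finset ℕ := (range s).image (fun i => z.1 + i * z.2)

lemma quad_eq (L C t n A B : ℕ) : Isolated {0, 2, 6, 8} L C t (n ^ 6) A B = Quadruplets L C t n A B := by
  classical
  unfold Isolated Quadruplets
  apply filter_congr
  intro q _
  refine and_congr Iff.rfl ?_
  constructor
  · intro h2 j hj1 hj2 h0 h2' h6 h8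
    refine h2 j hj1 hj2 ?_
    intro h hh
    simp only [mem_insert, mem_singleton] at hh
    rcases hh with rfl | rfl | rfl | rfl
    · simpa using h0
    · simpa using h2'
    · simpa using h6
    · simpa using h8
  · intro h3 j hj1 hj2 hj3
    exact h3 j hj1 hj2 (by simpa using hj3 0 (by simp)) (by simpa using hj3 2 (by simp))
      (by simpa using hj3 6 (by simp)) (by simpa using hj3 8 (by simp))

lemma adm : AdmS {0, 2, 6, 8} := by
  intro p hp
  by_cases h3 : p = 3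
  · exact ⟨2, by subst h3; decide⟩
  by_cases h7 : p = 7
  · exact ⟨2, by subst h7; decide⟩
  · refine ⟨1, fun hd => h7 ?_⟩
    have e : ∏ a ∈ ({0, 2, 6, 8} : Finset ℕ), (1 + a) = 3 * (3 * (3 * 7)) := by decide
    rw [e] at hd
    have h3' : ¬ p ∣ 3 := fun h => h3 ((Nat.prime_dvd_prime_iff_eq hp Nat.prime_three).1 h)
    have h4 := (hp.dvd_mul.1 hd).resolve_left h3'
    have h5 := (hp.dvd_mul.1 h4).resolve_left h3'
    have h6 := (hp.dvd_mul.1 h5).resolve_left h3'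
    exact (Nat.prime_dvd_prime_iff_eq hp (by norm_num)).1 h6

theorem result (L : ℕ) (ε : ℝ) (hε : 0 < ε) :
    ∃ C t : ℕ, 1 ≤ t ∧ ∃ κ K : ℝ, 0 < κ ∧ 0 < K ∧ ∀ (s r : ℕ) (δ : ℝ), 1 ≤ s → 0 < δ → ∃ c n₀ : ℕ,
      ∀ n : ℕ, n₀ ≤ n → ∀ A B : ℕ, n ^ 5 ≤ A → B + 8 < (n + 1) ^ 5 → (n : ℝ) ^ ε ≤ (B : ℝ) - A →
        κ * ((B : ℝ) - A) / Real.log n ^ 4 ≤ ((Quadruplets L C t n A B).card : ℝ) ∧
        ((Quadruplets L C t n A B).card : ℝ) ≤ K * ((B : ℝ) - A) / Real.log n ^ 4 ∧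
        ∀ χ : ℕ → Fin r, ∃ P : Finset (ℕ × ℕ),
          (∀ z ∈ P, 1 ≤ z.2 ∧ (z.2 : ℝ) ≤ Real.log n ^ c ∧
            ∀ l < s, z.1 + l * z.2 ∈ Quadruplets L C t n A B ∧ χ (z.1 + l * z.2) = χ z.1) ∧
          (P : Set (ℕ × ℕ)).PairwiseDisjoint (Progression s) ∧
          (((Quadruplets L C t n A B \ P.biUnion (Progression s)).card : ℕ) : ℝ) ≤
            δ * ((B : ℝ) - A) / Real.log n ^ 4 := by
  obtain ⟨C, t, ht, κ, K, hκ, hK, h⟩ := isolatedE {0, 2, 6, 8} (by simp) adm L 6 (by norm_num) ε hε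
  refine ⟨C, t, ht, κ, K, hκ, hK, fun s r δ hs hδ => ?_⟩
  obtain ⟨c, N₀, h2⟩ := h s r δ hs hδ
  refine ⟨c, max N₀ 32, fun n hn A B _ hB hAB => ?_⟩
  have hn8 : 32 ≤ n := (le_max_right _ _).trans hn
  have h3 := h2 n ((le_max_left _ _).trans hn) A B (by
    have e1 : (n + 1) ^ 5 ≤ (2 * n) ^ 5 := Nat.pow_le_pow_left (by omega) 5
    have e2 : (2 * n) ^ 5 ≤ n ^ 6 := by
      calc (2 * n) ^ 5 = 32 * n ^ 5 := by ring
        _ ≤ n * n ^ 5 := Nat.mul_le_mul_right _ hn8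
        _ = n ^ 6 := by ring
    omega) hAB
  have hcard : ({0, 2, 6, 8} : Finset ℕ).card = 4 := by decide
  rw [hcard, quad_eq] at h3
  exact h3

end Pool.Agent.Results.MP_c03ca8_nt.ExactQuadruplets
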