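import Mathlib
import Pool.Agent.Y816.PD.UniJ

/-!
# Almost prime quadruplets, and clusters of them, with restricted digits between consecutive fifth powers

Let `0 ∈ T` be a finite set such that for every prime `p` some `m` has `p ∤ m + t + h` for all `t ∈ T` and
`h ∈ {0, 2, 6, 8}` (for instance `T = {0}`, or `T = {0, 30}`), and let `k` be the number of the sums `t + h`. For all
large `n` put `K = log_b (n ^ 4)`. Among the `m` whose last `K` digits in base `b` belong to prescribed sets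
`A 0, ..., A (K - 1)` there are at least `κ |A 0| ⋯ |A (K - 1)| / K ^ k` for which all `(m + t, m + t + 2, m + t + 6,
m + t + 8)`, `t ∈ T`, are quadruplets between `n ^ 5` and `(n + 1) ^ 5` of numbers with at most `r` prime factors, all
of them larger than `b ^ (K / r)`, and at most `C |A 0| ⋯ |A (K - 1)| / K ^ k` for which all of them are prime
quadruplets between `n ^ 5` and `(n + 1) ^ 5`. The sets are arbitrary sets of digits with
`|A 0| ⋯ |A (K - 1)| ≥ exp (- c K) b ^ K`.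
-/

set_option autoImplicit false

namespace Pool.Agent.Results.MP_c03ca8_nt.RestrictedDigits

open Finset Filter

/-- `p`, `p + 2`, `p + 6`, `p + 8` lie between `n ^ 5` and `(n + 1) ^ 5` and each of them has at most `r` prime factors
(counted with multiplicity), all of them larger than `z ^ (1 / r)` -/
def AlmostQuadruplet (n r z p : ℕ) : Prop := n ^ 5 < p ∧ p + 8 < (n + 1) ^ 5 ∧
  ∀ h ∈ ({0, 2, 6, 8} : Finset ℕ), (∀ q : ℕ, q.Prime → q ∣ p + h → z < q ^ r) ∧ (p + h).primeFactorsList.length ≤ r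

/-- `(p, p + 2, p + 6, p + 8)` is a prime quadruplet between `n ^ 5` and `(n + 1) ^ 5` -/
def PrimeQuadruplet (n p : ℕ) : Prop := n ^ 5 < p ∧ p + 8 < (n + 1) ^ 5 ∧
  p.Prime ∧ (p + 2).Prime ∧ (p + 6).Prime ∧ (p + 8).Prime

/-- the number of the elements of `S` whose `i`-th digit in base `b` belongs to `A i` for all `i < K` -/
noncomputable def count (b K : ℕ) (A : ℕ → Finset ℕ) (S : Set ℕ) : ℕ :=
  {m : ℕ | m ∈ S ∧ ∀ i < K, m / b ^ i % b ∈ A i}.ncard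

/-- the number of choices of the `K` digits -/
def choices (K : ℕ) (A : ℕ → Finset ℕ) : ℕ := ∏ i ∈ range K, (A i).card

/-- the sums `t + h` with `t ∈ T` and `h ∈ {0, 2, 6, 8}` -/
def sums (T : Finset ℕ) : Finset ℕ := (T ×ˢ {0, 2, 6, 8}).image (fun x => x.1 + x.2)

theorem result (T : Finset ℕ) (h0 : 0 ∈ T)
    (hadm : ∀ p : ℕ, p.Prime → ∃ m : ℕ, ∀ t ∈ T, ∀ h ∈ ({0, 2, 6, 8} : Finset ℕ), ¬ p ∣ m + t + h)
    (k : ℕ) (hk : k = (sums T).card) :
    ∃ c : ℝ, 0 < c ∧ ∃ r₀ : ℕ, 2 ≤ r₀ ∧ ∀ r : ℕ, r₀ ≤ r → ∀ b : ℕ, 2 ≤ b → ∃ κ C : ℝ, 0 < κ ∧ 0 < C ∧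
      ∀ᶠ n : ℕ in atTop, ∀ K : ℕ, K = Nat.log b (n ^ 4) →
        ∀ A : ℕ → Finset ℕ, (∀ i < K, A i ⊆ range b) → (b : ℝ) ^ K ≤ Real.exp (c * K) * choices K A →
        ((∃ d ∈ A 0, ∀ t ∈ T, ∀ h ∈ ({0, 2, 6, 8} : Finset ℕ), (d + t + h).Coprime b) →
          κ * choices K A / (K : ℝ) ^ k ≤ count b K A {m | ∀ t ∈ T, AlmostQuadruplet n r (b ^ K) (m + t)}) ∧
        (count b K A {m | ∀ t ∈ T, PrimeQuadruplet n (m + t)} : ℝ) ≤ C * choices K A / (K : ℝ) ^ k := by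
  classical
  have hmem : ∀ h : ℕ, h ∈ sums T ↔ ∃ t ∈ T, ∃ g ∈ ({0, 2, 6, 8} : Finset ℕ), t + g = h := by
    intro h
    unfold sums
    simp only [mem_image, mem_product, Prod.exists]
    constructor
    · rintro ⟨t, g, ⟨ht, hg⟩, rfl⟩
      exact ⟨t, ht, g, hg, rfl⟩
    · rintro ⟨t, ht, g, hg, rfl⟩
      exact ⟨t, g, ⟨ht, hg⟩, rfl⟩
  have hk1 : 1 ≤ k := by
    rw [hk]
    exact card_pos.2 ⟨0, (hmem 0).2 ⟨0, h0, 0, by decide, rfl⟩⟩
  obtain ⟨c, hc, r₀, hr₀, h⟩ := Pool.Agent.Y816.PD.uni_set (sums T) (fun p hp => by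
    obtain ⟨m, hm⟩ := hadm p hp
    refine ⟨m, fun h hh => ?_⟩
    obtain ⟨t, ht, g, hg, rfl⟩ := (hmem h).1 hh
    rw [← add_assoc]
    exact hm t ht g hg) k hk.symm hk1 4
  refine ⟨c, hc, r₀, hr₀, fun r hr b hb => ?_⟩
  obtain ⟨κ, C, hκ, hC, h1⟩ := h r hr b hb (31 * b)
  refine ⟨κ, C, hκ, hC, ?_⟩
  obtain ⟨K0, hK0⟩ := eventually_atTop.1 h1
  filter_upwards [eventually_ge_atTop (b ^ (K0 + 4))] with n hn K hK A hA hprod
  have hb0 : 0 < b := by omega
  have hn1 : 1 ≤ n := le_trans (Nat.one_le_pow _ _ hb0) hn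
  have hn4 : n ≤ n ^ 4 := Nat.le_self_pow (by norm_num) n
  have hn40 : n ^ 4 ≠ 0 := by positivity
  have hKK : K0 + 4 ≤ K := by
    rw [hK]
    exact Nat.le_log_of_pow_le (by omega) (hn.trans hn4)
  have hb1 : b ^ K ≤ n ^ 4 := by
    rw [hK]
    exact Nat.pow_log_le_self b hn40
  have hb2 : n ^ 4 < b ^ (K + 1) := by
    rw [hK]
    exact Nat.lt_pow_succ_log_self (by omega) _
  have hNA : Pool.Agent.Y816.PD.NA K A = ((choices K A : ℕ) : ℝ) := by
    unfold Pool.Agent.Y816.PD.NA choices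
    push_cast
    rfl
  have hexp : (n + 1) ^ 5 = n ^ 5 + (5 * n ^ 4 + 10 * n ^ 3 + 10 * n ^ 2 + 5 * n + 1) := by ring
  have hn3 : n ^ 3 ≤ n ^ 4 := Nat.pow_le_pow_right hn1 (by norm_num)
  have hn2 : n ^ 2 ≤ n ^ 4 := Nat.pow_le_pow_right hn1 (by norm_num)
  have hn00 : 1 ≤ n ^ 4 := Nat.one_le_pow _ _ hn1
  obtain ⟨y, hy⟩ : ∃ y, y = 5 * n ^ 4 + 10 * n ^ 3 + 10 * n ^ 2 + 5 * n + 1 := ⟨_, rfl⟩
  rw [← hy] at hexp
  have hy31 : y ≤ 31 * n ^ 4 := by omega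
  have hyM : y ≤ 31 * b * b ^ K := by
    calc y ≤ 31 * n ^ 4 := hy31
      _ ≤ 31 * b ^ (K + 1) := Nat.mul_le_mul_left _ hb2.le
      _ = 31 * b * b ^ K := by ring
  have hxD : n ^ 5 ≤ b ^ (4 * K) := by
    calc n ^ 5 ≤ n ^ 8 := Nat.pow_le_pow_right hn1 (by norm_num)
      _ = (n ^ 4) ^ 2 := by ring
      _ ≤ (b ^ (K + 1)) ^ 2 := Nat.pow_le_pow_left hb2.le 2
      _ = b ^ ((K + 1) * 2) := (pow_mul _ _ _).symm
      _ ≤ b ^ (4 * K) := Nat.pow_le_pow_right hb0 (by omega)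
  obtain ⟨h2, h3⟩ := hK0 K (by omega) {m | n ^ 5 < m ∧ m < (n + 1) ^ 5} (n ^ 5) y y (by omega) le_rfl hyM hxD
    (fun m hm1 hm2 => ⟨hm1, by omega⟩) (fun m hm => ⟨hm.1, by have := hm.2; omega⟩) A hA
    (by rw [hNA]; exact hprod)
  rw [hNA] at h2 h3
  have hfin : ∀ S : Set ℕ, (∀ m ∈ S, n ^ 5 < m ∧ m < (n + 1) ^ 5) → S.Finite := by
    intro S hS
    apply (finite_toSet (Ioo (n ^ 5) ((n + 1) ^ 5))).subset
    intro m hm
    rw [mem_coe, mem_Ioo]
    exact hS m hm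
  constructor
  · rintro ⟨d, hd, hcop⟩
    refine (h2 ⟨d, hd, fun h hh => ?_⟩).trans (Nat.cast_le.2 ?_)
    · obtain ⟨t, ht, g, hg, rfl⟩ := (hmem h).1 hh
      rw [← add_assoc]
      exact hcop t ht g hg
    · unfold Pool.Agent.Y816.PD.DC count
      apply Set.ncard_le_ncard
      · rintro m ⟨⟨hm1, hm2⟩, hm3⟩
        refine ⟨fun t ht => ⟨?_, ?_, fun g hg => ?_⟩, hm3⟩
        · have h5 := (hm2 (t + 0) ((hmem _).2 ⟨t, ht, 0, by decide, rfl⟩)).1.1
          rw [add_zero] at h5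
          exact h5
        · have h5 := (hm2 (t + 8) ((hmem _).2 ⟨t, ht, 8, by decide, rfl⟩)).1.2
          rw [← add_assoc] at h5
          exact h5
        · have h5 := (hm2 (t + g) ((hmem _).2 ⟨t, ht, g, hg, rfl⟩)).2
          rw [← add_assoc] at h5
          exact h5
      · apply hfin
        rintro m ⟨hm1, -⟩
        have h5 := hm1 0 h0
        have h6 := h5.1
        have h7 := h5.2.1
        rw [add_zero] at h6 h7
        exact ⟨h6, by omega⟩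
  · refine le_trans (Nat.cast_le.2 ?_) h3
    unfold Pool.Agent.Y816.PD.DC count
    apply Set.ncard_le_ncard
    · rintro m ⟨hm1, hm3⟩
      refine ⟨⟨?_, fun h hh => ?_⟩, hm3⟩
      · have h5 := hm1 0 h0
        have h6 := h5.1
        have h7 := h5.2.1
        rw [add_zero] at h6 h7
        exact ⟨h6, by omega⟩
      · obtain ⟨t, ht, g, hg, rfl⟩ := (hmem h).1 hh
        obtain ⟨-, -, h5, h6, h7, h8⟩ := hm1 t ht
        simp only [mem_insert, mem_singleton] at hg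
        rcases hg with rfl | rfl | rfl | rfl
        · rw [add_zero]; exact h5
        · rw [← add_assoc]; exact h6
        · rw [← add_assoc]; exact h7
        · rw [← add_assoc]; exact h8
    · apply hfin
      rintro m ⟨⟨hm1, -⟩, -⟩
      exact hm1

end Pool.Agent.Results.MP_c03ca8_nt.RestrictedDigits
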